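import Pool.Agent.Lib_helper66.HEX.Cert

namespace Pool.Agent.Lib_helper66.HEX

theorem chkB : ([3, 4, 5].all fun r => [0, 1, 2, 3, 4, 5].all fun r2 =>
    [0, 1, 2, 3, 4, 5, 6, 7, 8, 9, 10, 11, 12].all fun s => chk r r2 s) = true := by
  decide +kernel

end Pool.Agent.Lib_helper66.HEX
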