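import Pool.Agent.Lib_helper66.HEX.Safe

namespace Pool.Agent.Lib_helper66.HEX

open Finset

/-- `A` contains a chain that crosses the rows `a, ..., a + h - 1` inside these rows. -/
def Cross (a : ℤ) (h : ℕ) (A : Finset Cell) : Prop :=
  ∃ (x y : Cell) (p : hexGraph.Walk x y),
    (∀ c ∈ p.support, c ∈ A ∧ a ≤ c.1 ∧ c.1 < a + h) ∧ x.1 = a ∧ y.1 = a + h - 1

theorem adj_row {x y : Cell} (h : hexGraph.Adj x y) : y.1 ≤ x.1 + 1 ∧ x.1 ≤ y.1 + 1 := by
  have h' : Adj x y := h
  unfold Adj at h'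
  omega

theorem walk_row {x y : Cell} (p : hexGraph.Walk x y) :
    y.1 ≤ x.1 + p.length ∧ x.1 ≤ y.1 + p.length := by
  induction p with
  | nil => simp
  | cons h p ih =>
    have := adj_row h
    simp only [SimpleGraph.Walk.length_cons]
    push_cast
    omega

theorem cross_path {a : ℤ} {h : ℕ} {A : Finset Cell} (hA : Cross a h A) :
    ∃ (x y : Cell) (p : hexGraph.Walk x y), p.IsPath ∧
      (∀ c ∈ p.support, c ∈ A ∧ a ≤ c.1 ∧ c.1 < a + h) ∧ x.1 = a ∧ y.1 = a + h - 1 ∧
      p.length + 1 ≤ A.card := by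
  obtain ⟨x, y, p, hp, hx, hy⟩ := hA
  refine ⟨x, y, p.bypass, p.bypass_isPath, fun c hc => hp c (p.support_bypass_subset_support hc), hx, hy,
    ?_⟩
  have h1 : p.bypass.support.toFinset ⊆ A := by
    intro c hc
    exact (hp c (p.support_bypass_subset_support (List.mem_toFinset.1 hc))).1
  have h2 := card_le_card h1
  rw [List.toFinset_card_of_nodup p.bypass_isPath.support_nodup,
    SimpleGraph.Walk.length_support] at h2
  exact h2

theorem cross_card {a : ℤ} {h : ℕ} {A : Finset Cell} (hA : Cross a h A) : h ≤ A.card := by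
  obtain ⟨x, y, p, _, _, hx, hy, hl⟩ := cross_path hA
  have := walk_row p
  omega

theorem cross_mono {a : ℤ} {h : ℕ} {A B : Finset Cell} (hA : Cross a h A) (hAB : A ⊆ B) :
    Cross a h B := by
  obtain ⟨x, y, p, hp, hx, hy⟩ := hA
  exact ⟨x, y, p, fun c hc => ⟨hAB (hp c hc).1, (hp c hc).2⟩, hx, hy⟩

/-- every walk from above row `a` to below row `b` crosses the rows between them -/
theorem walk_cross {x y : Cell} (p : hexGraph.Walk x y) {a b : ℤ} (hab : a ≤ b) (hb : b ≤ y.1) :
    (a ≤ x.1 → x.1 ≤ b →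
      (∃ (x' y' : Cell) (q : hexGraph.Walk x' y'),
        (∀ c ∈ q.support, c ∈ p.support ∧ a ≤ c.1 ∧ c.1 ≤ b) ∧ x'.1 = a ∧ y'.1 = b) ∨
      (∃ (y' : Cell) (q : hexGraph.Walk x y'),
        (∀ c ∈ q.support, c ∈ p.support ∧ a ≤ c.1 ∧ c.1 ≤ b) ∧ y'.1 = b)) ∧
    (x.1 ≤ a → ∃ (x' y' : Cell) (q : hexGraph.Walk x' y'),
        (∀ c ∈ q.support, c ∈ p.support ∧ a ≤ c.1 ∧ c.1 ≤ b) ∧ x'.1 = a ∧ y'.1 = b) := by
  induction p with
  | nil =>
    rename_i u
    refine ⟨fun h1 h2 => Or.inr ⟨u, SimpleGraph.Walk.nil, ?_, by omega⟩,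
      fun h1 => ⟨u, u, SimpleGraph.Walk.nil, ?_, by omega, by omega⟩⟩
    · intro c hc
      simp only [SimpleGraph.Walk.support_nil, List.mem_singleton] at hc
      subst hc
      exact ⟨by simp, by omega, by omega⟩
    · intro c hc
      simp only [SimpleGraph.Walk.support_nil, List.mem_singleton] at hc
      subst hc
      exact ⟨by simp, by omega, by omega⟩
  | cons h p ih =>
    rename_i u v w
    obtain ⟨ih1, ih2⟩ := ih hb
    have hr := adj_row h
    have lift : (∃ (x' y' : Cell) (q : hexGraph.Walk x' y'),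
        (∀ c ∈ q.support, c ∈ p.support ∧ a ≤ c.1 ∧ c.1 ≤ b) ∧ x'.1 = a ∧ y'.1 = b) →
        (∃ (x' y' : Cell) (q : hexGraph.Walk x' y'),
        (∀ c ∈ q.support, c ∈ (SimpleGraph.Walk.cons h p).support ∧ a ≤ c.1 ∧ c.1 ≤ b) ∧
          x'.1 = a ∧ y'.1 = b) := by
      rintro ⟨x', y', q, hq, h1, h2⟩
      refine ⟨x', y', q, fun c hc => ⟨?_, (hq c hc).2⟩, h1, h2⟩
      rw [SimpleGraph.Walk.support_cons]
      exact List.mem_cons_of_mem _ (hq c hc).1
    have first : a ≤ u.1 → u.1 ≤ b →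
      (∃ (x' y' : Cell) (q : hexGraph.Walk x' y'),
        (∀ c ∈ q.support, c ∈ (SimpleGraph.Walk.cons h p).support ∧ a ≤ c.1 ∧ c.1 ≤ b) ∧
          x'.1 = a ∧ y'.1 = b) ∨
      (∃ (y' : Cell) (q : hexGraph.Walk u y'),
        (∀ c ∈ q.support, c ∈ (SimpleGraph.Walk.cons h p).support ∧ a ≤ c.1 ∧ c.1 ≤ b) ∧
          y'.1 = b) := by
      intro h1 h2
      by_cases hub : u.1 = b
      · refine Or.inr ⟨u, SimpleGraph.Walk.nil, ?_, hub⟩
        intro c hc
        simp only [SimpleGraph.Walk.support_nil, List.mem_singleton] at hc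
        subst hc
        exact ⟨by simp, h1, h2⟩
      · by_cases hva : a ≤ v.1
        · rcases ih1 hva (by omega) with h3 | ⟨y', q, hq, hy'⟩
          · exact Or.inl (lift h3)
          · refine Or.inr ⟨y', SimpleGraph.Walk.cons h q, ?_, hy'⟩
            intro c hc
            rw [SimpleGraph.Walk.support_cons] at hc ⊢
            rcases List.mem_cons.1 hc with rfl | hc
            · exact ⟨by simp, h1, h2⟩
            · exact ⟨List.mem_cons_of_mem _ (hq c hc).1, (hq c hc).2⟩
        · exact Or.inl (lift (ih2 (by omega)))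
    refine ⟨first, fun h1 => ?_⟩
    by_cases hua : u.1 = a
    · rcases first (by omega) (by omega) with h3 | ⟨y', q, hq, hy'⟩
      · exact h3
      · exact ⟨u, y', q, hq, hua, hy'⟩
    · exact lift (ih2 (by omega))

theorem cross_of_joined {n : ℕ} {R : Finset Cell} (hR : RedJoined n R) {a : ℤ} {h : ℕ}
    (h1 : 1 ≤ a) (h2 : a + h - 1 ≤ n) (h3 : 1 ≤ h) : Cross a h R := by
  obtain ⟨x, y, p, hp, hx, hy⟩ := hR
  have hx : x.1 = 1 := hx
  have hy : y.1 = n := hy
  obtain ⟨x', y', q, hq, hx', hy'⟩ := (walk_cross p (a := a) (b := a + h - 1) (by omega)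
    (by omega)).2 (by omega)
  exact ⟨x', y', q, fun c hc => ⟨hp c (hq c hc).1, (hq c hc).2.1, by
    have := (hq c hc).2.2
    omega⟩, hx', hy'⟩

/-! ### enumeration of walks -/

/-- the six steps -/
def dirs : List Cell := [(1, 0), (1, -1), (0, 1), (0, -1), (-1, 0), (-1, 1)]

/-- all walks with `k` steps from `x` that end `q` rows below `x` -/
def paths : ℕ → ℤ → Cell → List (List Cell)
  | 0, q, x => if q = 0 then [[x]] else []
  | k + 1, q, x =>
    if q ≤ k + 1 then
      dirs.flatMap (fun e => (paths k (q - e.1) (x + e)).map (fun L => x :: L))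
    else []

theorem adj_dirs {x y : Cell} (h : hexGraph.Adj x y) : ∃ e ∈ dirs, y = x + e := by
  have h' : Adj x y := h
  unfold Adj at h'
  obtain ⟨x1, x2⟩ := x
  obtain ⟨y1, y2⟩ := y
  simp only at h'
  rcases h' with h | h | h | h | h | h
  · exact ⟨(1, 0), by simp [dirs], by ext <;> simp <;> omega⟩
  · exact ⟨(-1, 0), by simp [dirs], by ext <;> simp <;> omega⟩
  · exact ⟨(0, 1), by simp [dirs], by ext <;> simp <;> omega⟩
  · exact ⟨(0, -1), by simp [dirs], by ext <;> simp <;> omega⟩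
  · exact ⟨(1, -1), by simp [dirs], by ext <;> simp <;> omega⟩
  · exact ⟨(-1, 1), by simp [dirs], by ext <;> simp <;> omega⟩

theorem support_mem_paths {x y : Cell} (p : hexGraph.Walk x y) :
    ∀ q : ℤ, y.1 = x.1 + q → p.support ∈ paths p.length q x := by
  induction p with
  | nil =>
    intro q hq
    have : q = 0 := by omega
    simp [paths, this]
  | cons h p ih =>
    rename_i u v w
    intro q hq
    obtain ⟨e, he, hv⟩ := adj_dirs h
    have hrow := walk_row (SimpleGraph.Walk.cons h p)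
    simp only [SimpleGraph.Walk.length_cons] at hrow
    have hv1 : v.1 = u.1 + e.1 := by rw [hv]; rfl
    have := ih (q - e.1) (by omega)
    simp only [SimpleGraph.Walk.length_cons, SimpleGraph.Walk.support_cons, paths]
    rw [if_pos (by push_cast at hrow; omega)]
    refine List.mem_flatMap.2 ⟨e, he, List.mem_map.2 ⟨p.support, ?_, rfl⟩⟩
    rw [← hv]
    exact this

theorem paths_shift : ∀ (k : ℕ) (q : ℤ) (x t : Cell) (L : List Cell), L ∈ paths k q x →
    L.map (fun c => c + t) ∈ paths k q (x + t)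
  | 0, q, x, t, L, h => by
    simp only [paths] at h ⊢
    split_ifs at h ⊢ with hq
    · simp only [List.mem_singleton] at h ⊢
      subst h
      simp
    · simp at h
  | k + 1, q, x, t, L, h => by
    simp only [paths] at h ⊢
    split_ifs at h ⊢ with hq
    · obtain ⟨e, he, h⟩ := List.mem_flatMap.1 h
      obtain ⟨L', hL', rfl⟩ := List.mem_map.1 h
      refine List.mem_flatMap.2 ⟨e, he, List.mem_map.2 ⟨L'.map (fun c => c + t), ?_, rfl⟩⟩
      have := paths_shift k (q - e.1) (x + e) t L' hL'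
      rwa [show x + e + t = x + t + e by abel] at this
    · simp at h

theorem paths_origin {k : ℕ} {q : ℤ} {x : Cell} {L : List Cell} (h : L ∈ paths k q x) :
    ∃ L0 ∈ paths k q 0, L = L0.map (fun c => c + x) := by
  refine ⟨L.map (fun c => c + -x), ?_, ?_⟩
  · have := paths_shift k q x (-x) L h
    rwa [add_neg_cancel] at this
  · rw [List.map_map]
    conv_lhs => rw [← List.map_id L]
    apply List.map_congr_left
    intro c _
    simp

/-! ### the local blocks -/

/-- the blocking cell two rows below or above `c` -/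
def blk (dn : Bool) (c : Cell) : Cell := if dn then c + (2, -1) else c + (-2, 1)

/-- the two pairs that belong to the block -/
def prs (dn : Bool) (c : Cell) : List (Cell × Cell) :=
  if dn then [(c + (1, 0), c + (2, 0)), (c + (1, -1), c + (2, -2))]
  else [(c + (-1, 0), c + (-2, 0)), (c + (-1, 1), c + (-2, 2))]

/-- computed property of the monotone walks -/
def monoOK (h : ℕ) : Bool :=
  (paths (h - 1) (h - 1 : ℕ) 0).all fun L => L.all fun c =>
    (! decide (c.1 + 3 ≤ h) || (decide (c + (2, -1) ∈ L) ||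
      (decide (c + (1, 0) ∈ L) && decide (c + (2, 0) ∈ L)) ||
      (decide (c + (1, -1) ∈ L) && decide (c + (2, -2) ∈ L)))) &&
    (! decide (2 ≤ c.1) || (decide (c + (-2, 1) ∈ L) ||
      (decide (c + (-1, 0) ∈ L) && decide (c + (-2, 0) ∈ L)) ||
      (decide (c + (-1, 1) ∈ L) && decide (c + (-2, 2) ∈ L))))

theorem mono4 : monoOK 4 = true := by decide +kernel
theorem mono5 : monoOK 5 = true := by decide +kernel
theorem mono6 : monoOK 6 = true := by decide +kernel

theorem mono_block {h : ℕ} (hh : monoOK h = true) (h1 : 1 ≤ h) {x y : Cell}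
    (p : hexGraph.Walk x y) (hy : y.1 = x.1 + h - 1) (hl : p.length = h - 1)
    {c : Cell} (hc : c ∈ p.support) (dn : Bool)
    (hdn : if dn then c.1 + 3 ≤ x.1 + h else x.1 + 2 ≤ c.1) (hb : blk dn c ∉ p.support) :
    ∃ q ∈ prs dn c, q.1 ∈ p.support ∧ q.2 ∈ p.support := by
  have hm := support_mem_paths p ((h - 1 : ℕ) : ℤ) (by omega)
  rw [hl] at hm
  obtain ⟨L0, hL0, hL⟩ := paths_origin hm
  rw [hL] at hc hb ⊢
  obtain ⟨c0, hc0, rfl⟩ := List.mem_map.1 hc
  have hall := List.all_eq_true.1 (List.all_eq_true.1 hh L0 hL0) c0 hc0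
  simp only [Bool.and_eq_true, Bool.or_eq_true, Bool.not_eq_true', decide_eq_true_eq,
    decide_eq_false_iff_not] at hall
  obtain ⟨ha, hb'⟩ := hall
  have mm : ∀ t : Cell, c0 + t ∈ L0 → c0 + x + t ∈ L0.map (fun c => c + x) := by
    intro t ht
    refine List.mem_map.2 ⟨c0 + t, ht, ?_⟩
    abel
  cases dn with
  | true =>
    simp only [blk, prs, if_true, Prod.fst_add] at hdn hb ⊢
    rcases ha with ha | ha
    · exact absurd (by omega) ha
    · rcases ha with (ha | ha) | ha
      · exact absurd (mm _ ha) hb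
      · exact ⟨(c0 + x + (1, 0), c0 + x + (2, 0)), by simp, mm _ ha.1, mm _ ha.2⟩
      · exact ⟨(c0 + x + (1, -1), c0 + x + (2, -2)), by simp, mm _ ha.1, mm _ ha.2⟩
  | false =>
    simp only [blk, prs, Bool.false_eq_true, if_false, Prod.fst_add] at hdn hb ⊢
    rcases hb' with ha | ha
    · exact absurd (by omega) ha
    · rcases ha with (ha | ha) | ha
      · exact absurd (mm _ ha) hb
      · exact ⟨(c0 + x + (-1, 0), c0 + x + (-2, 0)), by simp, mm _ ha.1, mm _ ha.2⟩
      · exact ⟨(c0 + x + (-1, 1), c0 + x + (-2, 2)), by simp, mm _ ha.1, mm _ ha.2⟩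

end Pool.Agent.Lib_helper66.HEX
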