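import Mathlib

/-!
The game of Hex on the `n × n` board: cells, chains, and the statement that the first player
can force a win within a given number of stones.
-/

namespace Pool.Agent.Lib_helper66.HEX

/-- A cell of the hexagonal plane. -/
abbrev Cell := ℤ × ℤ

/-- Two cells are adjacent: `(i, j)` is adjacent to `(i ± 1, j)`, `(i, j ± 1)`, `(i + 1, j - 1)`
and `(i - 1, j + 1)`. -/
def Adj (a b : Cell) : Prop :=
  (b.1 = a.1 + 1 ∧ b.2 = a.2) ∨ (b.1 = a.1 - 1 ∧ b.2 = a.2) ∨
  (b.1 = a.1 ∧ b.2 = a.2 + 1) ∨ (b.1 = a.1 ∧ b.2 = a.2 - 1) ∨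
  (b.1 = a.1 + 1 ∧ b.2 = a.2 - 1) ∨ (b.1 = a.1 - 1 ∧ b.2 = a.2 + 1)

/-- The hexagonal lattice as a graph on the cells. -/
def hexGraph : SimpleGraph Cell where
  Adj := Adj
  symm := ⟨by
    intro a b h
    unfold Adj at *
    omega⟩
  loopless := ⟨by
    intro a h
    unfold Adj at h
    omega⟩

/-- The cells of the `n × n` board are the pairs `(i, j)` with `1 ≤ i ≤ n` and `1 ≤ j ≤ n`. -/
def OnBoard (n : ℕ) (c : Cell) : Prop := 1 ≤ c.1 ∧ c.1 ≤ n ∧ 1 ≤ c.2 ∧ c.2 ≤ n

/-- The cells in `S` contain a chain of successively adjacent cells that begins in a cell with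
property `P` and ends in a cell with property `Q`. -/
def Joins (S : Finset Cell) (P Q : Cell → Prop) : Prop :=
  ∃ (x y : Cell) (p : hexGraph.Walk x y), (∀ c ∈ p.support, c ∈ S) ∧ P x ∧ Q y

/-- Red (the first player) has joined the sides `i = 1` and `i = n`. -/
def RedJoined (n : ℕ) (R : Finset Cell) : Prop :=
  Joins R (fun c => c.1 = 1) (fun c => c.1 = n)

/-- Blue (the second player) has joined the sides `j = 1` and `j = n`. -/
def BlueJoined (n : ℕ) (B : Finset Cell) : Prop :=
  Joins B (fun c => c.2 = 1) (fun c => c.2 = n)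

/-- With the red stones `R` and the blue stones `B` on the `n × n` board and Red to move, Red has
a strategy that wins with at most `k` further red stones, whatever Blue does: he can place a
stone on an empty cell so that either he has now joined his sides, or an empty cell is left and,
for every empty cell on which Blue places a stone, Blue has not joined his sides and Red has a
strategy that wins with at most `k - 1` further stones. -/
def RedWinsWithin (n : ℕ) : ℕ → Finset Cell → Finset Cell → Prop
  | 0, _, _ => False
  | k + 1, R, B => ∃ c, OnBoard n c ∧ c ∉ R ∧ c ∉ B ∧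
      (RedJoined n (insert c R) ∨
        ((∃ d, OnBoard n d ∧ d ∉ insert c R ∧ d ∉ B) ∧
          ∀ d, OnBoard n d → d ∉ insert c R → d ∉ B →
            ¬ BlueJoined n (insert d B) ∧ RedWinsWithin n k (insert c R) (insert d B)))

/-- `v` is the game value `v(n)` of Hex on the `n × n` board: the least `k` such that the first
player has a strategy that, from the empty board, wins no later than with his `k`-th stone. -/
def IsGameValue (n v : ℕ) : Prop := IsLeast {k | RedWinsWithin n k ∅ ∅} v

end Pool.Agent.Lib_helper66.HEX
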