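import Pool.Agent.Lib_helper66.HEX.Near
import Pool.Agent.Lib_helper66.HEX.ChkA
import Pool.Agent.Lib_helper66.HEX.ChkB

namespace Pool.Agent.Lib_helper66.HEX

open Finset

theorem chk_all : ∀ r < 6, ∀ r2 < 6, ∀ s < 13, chk r r2 s = true := by
  intro r hr r2 hr2 s hs
  have h2 : r2 ∈ [0, 1, 2, 3, 4, 5] := by
    simp only [List.mem_cons, List.not_mem_nil, or_false]
    omega
  have h3 : s ∈ [0, 1, 2, 3, 4, 5, 6, 7, 8, 9, 10, 11, 12] := by
    simp only [List.mem_cons, List.not_mem_nil, or_false]
    omega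
  by_cases h : r < 3
  · have h1 : r ∈ [0, 1, 2] := by
      simp only [List.mem_cons, List.not_mem_nil, or_false]
      omega
    exact List.all_eq_true.1 (List.all_eq_true.1 (List.all_eq_true.1 chkA r h1) r2 h2) s h3
  · have h1 : r ∈ [3, 4, 5] := by
      simp only [List.mem_cons, List.not_mem_nil, or_false]
      omega
    exact List.all_eq_true.1 (List.all_eq_true.1 (List.all_eq_true.1 chkB r h1) r2 h2) s h3

theorem safe_six (a : ℤ) (E : Set Cell) (hE : ∀ c ∈ E, a ≤ c.1 ∧ c.1 < a + 6) :
    Safe (Cross a 6) 7 ∅ E := by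
  refine safe_strip_two ?_ E hE
  intro c c' hc hc' h1 h2 h3 h4
  obtain ⟨r, hr⟩ : ∃ r : ℕ, c.1 = a + r := ⟨(c.1 - a).toNat, by omega⟩
  obtain ⟨r2, hr2⟩ : ∃ r2 : ℕ, c'.1 = a + r2 := ⟨(c'.1 - a).toNat, by omega⟩
  obtain ⟨s, hs⟩ : ∃ s : ℕ, c'.2 = c.2 + s - 6 := ⟨(c'.2 - c.2 + 6).toNat, by omega⟩
  have e1 : c = (a + r, c.2) := by ext <;> simp [hr]
  have e2 : c' = (a + r2, c.2 + s - 6) := by ext <;> simp [hr2, hs]
  rw [e1, e2] at h1 h2 ⊢
  exact near_of_chk (by omega) (by omega) (by omega)
    (chk_all r (by omega) r2 (by omega) s (by omega)) h1 h2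

/-- stones needed to cross a strip of height `h ≤ 6` -/
def wt : ℕ → ℕ
  | 4 => 5
  | 5 => 6
  | 6 => 8
  | h => h

theorem safe_wt {h : ℕ} (h1 : 1 ≤ h) (h6 : h ≤ 6) (a : ℤ) (E : Set Cell)
    (hE : ∀ c ∈ E, a ≤ c.1 ∧ c.1 < a + h) : Safe (Cross a h) (wt h - 1) ∅ E := by
  interval_cases h
  · exact safe_of_card (fun A hA => cross_card hA) _ _ _ (by simp [wt])
  · exact safe_of_card (fun A hA => cross_card hA) _ _ _ (by simp [wt])
  · exact safe_of_card (fun A hA => cross_card hA) _ _ _ (by simp [wt])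
  · exact safe_strip_one mono4 (by norm_num) a E hE
  · exact safe_strip_one mono5 (by norm_num) a E hE
  · exact safe_six a E (by simpa using hE)

/-- height of the strip number `t` -/
def ht (n t : ℕ) : ℕ := if t < n / 6 then 6 else n % 6

/-- first row of the strip number `t` -/
def row (t : ℕ) : ℤ := 1 + 6 * t

/-- the stones of `R` in the strip number `t` -/
def part (n t : ℕ) (R : Finset Cell) : Finset Cell :=
  R.filter fun c => row t ≤ c.1 ∧ c.1 < row t + ht n t

/-- the empty cells of the board -/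
def free (n : ℕ) (R B : Finset Cell) : Set Cell := {c | OnBoard n c ∧ c ∉ R ∧ c ∉ B}

/-- the zone of a strip -/
def zone (n t : ℕ) : Set Cell := {c | row t ≤ c.1 ∧ c.1 < row t + ht n t}

/-- the invariant of Blue's strategy -/
def Inv (n : ℕ) (R B : Finset Cell) : Prop :=
  ∀ t < n / 6 + 1, wt (ht n t) ≤ (part n t R).card ∨
    Safe (Cross (row t) (ht n t)) (wt (ht n t) - 1 - (part n t R).card) (part n t R)
      (free n R B ∩ zone n t)

theorem ht_le (n t : ℕ) : ht n t ≤ 6 := by
  unfold ht
  split_ifs <;> omega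

theorem inv_start (n : ℕ) : Inv n ∅ ∅ := by
  intro t ht'
  by_cases h0 : ht n t = 0
  · left
    rw [h0]
    simp [wt]
  · right
    have : part n t ∅ = ∅ := by simp [part]
    rw [this, card_empty, Nat.sub_zero]
    exact safe_wt (by omega) (ht_le n t) _ _ (fun c hc => hc.2)

theorem sum_part_le (n : ℕ) (R : Finset Cell) :
    ∑ t ∈ range (n / 6 + 1), (part n t R).card ≤ R.card := by
  rw [← card_biUnion]
  · apply card_le_card
    intro c hc
    obtain ⟨t, _, hc⟩ := mem_biUnion.1 hc
    exact (mem_filter.1 hc).1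
  · intro s hs t ht' hst
    rw [Function.onFun, disjoint_left]
    intro c hc hc'
    have h1 := (mem_filter.1 hc).2
    have h2 := (mem_filter.1 hc').2
    have h3 := ht_le n s
    have h4 := ht_le n t
    unfold row at h1 h2
    apply hst
    omega

theorem part_insert_of_mem {n t : ℕ} {R : Finset Cell} {c : Cell} (hc : c ∈ zone n t) :
    part n t (insert c R) = insert c (part n t R) := by
  unfold part
  rw [filter_insert]
  exact if_pos hc

theorem part_insert_of_notMem {n t : ℕ} {R : Finset Cell} {c : Cell} (hc : c ∉ zone n t) :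
    part n t (insert c R) = part n t R := by
  unfold part
  rw [filter_insert]
  exact if_neg hc

theorem cross_part {n t : ℕ} {R : Finset Cell} (hR : RedJoined n R) (ht' : t < n / 6 + 1)
    (h0 : 1 ≤ ht n t) : Cross (row t) (ht n t) (part n t R) := by
  have h1 : row t + ht n t - 1 ≤ n := by
    unfold row ht at *
    split_ifs at * with h
    · push_cast
      omega
    · push_cast
      omega
  obtain ⟨x, y, p, hp, hx, hy⟩ := cross_of_joined hR (a := row t) (h := ht n t)
    (by unfold row; omega) h1 h0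
  exact ⟨x, y, p, fun c hc => ⟨mem_filter.2 ⟨(hp c hc).1, (hp c hc).2⟩, (hp c hc).2⟩, hx, hy⟩

theorem main_bound (n : ℕ) : ∀ (k : ℕ) (R B : Finset Cell), Inv n R B →
    RedWinsWithin n k R B → ∑ t ∈ range (n / 6 + 1), wt (ht n t) ≤ R.card + k
  | 0, R, B, _, h => absurd h (by simp [RedWinsWithin])
  | k + 1, R, B, hI, h => by
    obtain ⟨c, hc, hcR, hcB, h⟩ := h
    have hcard : (insert c R).card = R.card + 1 := card_insert_of_notMem hcR
    have hfree : c ∈ free n R B := ⟨hc, hcR, hcB⟩
    -- the answer in the strip of `c`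
    have step : ∀ t < n / 6 + 1, ∃ d, wt (ht n t) ≤ (part n t (insert c R)).card ∨
        Safe (Cross (row t) (ht n t)) (wt (ht n t) - 1 - (part n t (insert c R)).card)
          (part n t (insert c R)) ((free n R B ∩ zone n t) \ {c, d}) := by
      intro t ht'
      by_cases hz : c ∈ zone n t
      · rw [part_insert_of_mem hz]
        have hcn : c ∉ part n t R := fun h => hcR (mem_filter.1 h).1
        rw [card_insert_of_notMem hcn]
        rcases hI t ht' with h1 | h1
        · exact ⟨c, Or.inl (by omega)⟩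
        · by_cases h2 : wt (ht n t) - 1 - (part n t R).card = 0
          · exact ⟨c, Or.inl (by omega)⟩
          · obtain ⟨m, hm⟩ : ∃ m, wt (ht n t) - 1 - (part n t R).card = m + 1 :=
              ⟨_, (Nat.succ_pred_eq_of_ne_zero h2).symm⟩
            rw [hm] at h1
            obtain ⟨d, hd⟩ := h1.2 c ⟨hfree, hz⟩
            refine ⟨d, Or.inr ?_⟩
            rwa [show wt (ht n t) - 1 - ((part n t R).card + 1) = m by omega]
      · rw [part_insert_of_notMem hz]
        rcases hI t ht' with h1 | h1
        · exact ⟨c, Or.inl h1⟩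
        · exact ⟨c, Or.inr (h1.mono Set.sdiff_subset)⟩
    rcases h with h | ⟨⟨d1, hd1⟩, h⟩
    · -- Red has joined
      have h1 : ∑ t ∈ range (n / 6 + 1), wt (ht n t) ≤
          ∑ t ∈ range (n / 6 + 1), (part n t (insert c R)).card := by
        apply sum_le_sum
        intro t ht'
        rw [mem_range] at ht'
        by_cases h0 : ht n t = 0
        · rw [h0]
          simp [wt]
        · obtain ⟨d, hd | hd⟩ := step t ht'
          · exact hd
          · exact absurd (cross_part h ht' (by omega)) hd.notBad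
      have h2 := sum_part_le n (insert c R)
      omega
    · -- Blue answers
      -- the strip of `c`
      have hstrip : ∃ t0, ∀ t < n / 6 + 1, t ≠ t0 → c ∉ zone n t := by
        refine ⟨((c.1 - 1) / 6).toNat, fun t _ hne hz => hne ?_⟩
        have h3 := ht_le n t
        have h4 : row t ≤ c.1 ∧ c.1 < row t + ht n t := hz
        unfold row at h4
        omega
      obtain ⟨t0, ht0⟩ := hstrip
      obtain ⟨d0, hd0⟩ : ∃ d0, t0 < n / 6 + 1 → (wt (ht n t0) ≤ (part n t0 (insert c R)).card ∨
        Safe (Cross (row t0) (ht n t0)) (wt (ht n t0) - 1 - (part n t0 (insert c R)).card)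
          (part n t0 (insert c R)) ((free n R B ∩ zone n t0) \ {c, d0})) := by
        by_cases ht : t0 < n / 6 + 1
        · obtain ⟨d, hd⟩ := step t0 ht
          exact ⟨d, fun _ => hd⟩
        · exact ⟨c, fun h => absurd h ht⟩
      -- a legal move that is at least as good as `d0`
      obtain ⟨d, hd1, hd2, hd3, hd4⟩ : ∃ d, OnBoard n d ∧ d ∉ insert c R ∧ d ∉ B ∧
          (d = d0 ∨ ¬ (OnBoard n d0 ∧ d0 ∉ insert c R ∧ d0 ∉ B)) := by
        by_cases hl : OnBoard n d0 ∧ d0 ∉ insert c R ∧ d0 ∉ B
        · exact ⟨d0, hl.1, hl.2.1, hl.2.2, Or.inl rfl⟩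
        · exact ⟨d1, hd1.1, hd1.2.1, hd1.2.2, Or.inr hl⟩
      have hIn : Inv n (insert c R) (insert d B) := by
        intro t ht'
        have hsub : ∀ u, u ∈ free n (insert c R) (insert d B) → u ∈ free n R B ∧ u ≠ c ∧
            u ≠ d0 := by
          rintro u ⟨hu1, hu2, hu3⟩
          rw [mem_insert, not_or] at hu2 hu3
          refine ⟨⟨hu1, hu2.2, hu3.2⟩, hu2.1, ?_⟩
          rintro rfl
          rcases hd4 with hd4 | hd4
          · exact hu3.1 hd4.symm
          · exact hd4 ⟨hu1, by rw [mem_insert, not_or]; exact hu2, hu3.2⟩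
        by_cases htt : t = t0
        · subst htt
          rcases hd0 ht' with h3 | h3
          · exact Or.inl h3
          · refine Or.inr (h3.mono ?_)
            rintro u ⟨hu, huz⟩
            have := hsub u hu
            refine ⟨⟨this.1, huz⟩, ?_⟩
            simp only [Set.mem_insert_iff, Set.mem_singleton_iff, not_or]
            exact ⟨this.2.1, this.2.2⟩
        · have hz := ht0 t ht' htt
          rw [part_insert_of_notMem hz]
          rcases hI t ht' with h3 | h3
          · exact Or.inl h3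
          · refine Or.inr (h3.mono ?_)
            rintro u ⟨hu, huz⟩
            exact ⟨(hsub u hu).1, huz⟩
      have := main_bound n k _ _ hIn (h d hd1 hd2 hd3).2
      omega

theorem sum_wt (n : ℕ) : ∑ t ∈ range (n / 6 + 1), wt (ht n t) = 8 * (n / 6) + wt (n % 6) := by
  rw [sum_range_succ]
  have h1 : ∑ t ∈ range (n / 6), wt (ht n t) = ∑ t ∈ range (n / 6), 8 := by
    apply sum_congr rfl
    intro t ht'
    rw [mem_range] at ht'
    simp [ht, ht', wt]
  rw [h1, sum_const, card_range, smul_eq_mul]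
  simp only [ht, lt_irrefl, if_false]
  ring

theorem wins_bound {n k : ℕ} (h : RedWinsWithin n k ∅ ∅) : 8 * (n / 6) + wt (n % 6) ≤ k := by
  have := main_bound n k ∅ ∅ (inv_start n) h
  rw [sum_wt] at this
  simpa using this

end Pool.Agent.Lib_helper66.HEX
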