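import Pool.Agent.Lib_helper66.HEX.Strip
import Pool.Agent.Lib_helper66.HEX.Cert

namespace Pool.Agent.Lib_helper66.HEX

open Finset

/-- the cell with code `k` -/
def cellOf (a j : ℤ) (k : ℕ) : Cell := (a + ((k / 64 : ℕ) : ℤ), j + ((k % 64 : ℕ) : ℤ) - 32)

theorem cellOf_inj {a j : ℤ} {k l : ℕ} (h : cellOf a j k = cellOf a j l) : k = l := by
  have h1 := congrArg Prod.fst h
  have h2 := congrArg Prod.snd h
  simp only [cellOf] at h1 h2
  omega

theorem testBit_rmask (L : List Cell) (t : ℤ) (k : ℕ) :
    (rmask L t).testBit k = true ↔ ∃ c ∈ L, (c.1 * 64 + c.2 + t).toNat = k := by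
  induction L with
  | nil => simp [rmask]
  | cons c L ih =>
    have : rmask (c :: L) t = rmask L t ||| 2 ^ (c.1 * 64 + c.2 + t).toNat := rfl
    rw [this, Nat.testBit_or, Bool.or_eq_true, ih, Nat.testBit_two_pow]
    simp only [decide_eq_true_eq, List.mem_cons]
    constructor
    · rintro (⟨d, hd, h⟩ | h)
      · exact ⟨d, Or.inr hd, h⟩
      · exact ⟨c, Or.inl rfl, h⟩
    · rintro ⟨d, rfl | hd, h⟩
      · exact Or.inr h
      · exact Or.inl ⟨d, hd, h⟩

theorem minFact {L : List Cell} (hL : L ∈ MIN) :
    L.Nodup ∧ 6 ≤ L.length ∧ ∀ c ∈ L, 0 ≤ c.1 ∧ c.1 ≤ 5 ∧ -6 ≤ c.2 ∧ c.2 ≤ 6 ∧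
      (rmask L (16 - c.2), L.length) ∈ thru c.1.toNat := by
  have h := List.all_eq_true.1 minFacts_ok L hL
  simp only [Bool.and_eq_true, decide_eq_true_eq] at h
  refine ⟨h.1.1, h.1.2, fun c hc => ?_⟩
  have h2 := List.all_eq_true.1 h.2 c hc
  simp only [Bool.and_eq_true, decide_eq_true_eq] at h2
  refine ⟨h2.1.1.1.1, h2.1.1.1.2, h2.1.1.2, h2.1.2, ?_⟩
  obtain ⟨M, hM, hM2⟩ := List.any_eq_true.1 h2.2
  simp only [Bool.and_eq_true] at hM2
  have : M = (rmask L (16 - c.2), L.length) :=
    Prod.ext (Nat.eq_of_beq_eq_true hM2.1) (Nat.eq_of_beq_eq_true hM2.2)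
  rwa [this] at hM

/-- a mask inclusion gives an inclusion of lists -/
theorem mask_incl {L L' : List Cell} {t : ℤ}
    (hL : ∀ c ∈ L, 0 ≤ c.1 ∧ 0 ≤ c.2 + t ∧ c.2 + t < 64)
    (hL' : ∀ c ∈ L', 0 ≤ c.1 ∧ 0 ≤ c.2 + t ∧ c.2 + t < 64)
    (h : rmask L t &&& rmask L' t = rmask L t) : ∀ c ∈ L, c ∈ L' := by
  intro c hc
  have h1 : (rmask L t).testBit (c.1 * 64 + c.2 + t).toNat = true :=
    (testBit_rmask L t _).2 ⟨c, hc, rfl⟩
  have h2 : (rmask L' t).testBit (c.1 * 64 + c.2 + t).toNat = true := by
    rw [← h, Nat.testBit_and, Bool.and_eq_true] at h1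
    exact h1.2
  obtain ⟨d, hd, hdc⟩ := (testBit_rmask L' t _).1 h2
  have h3 := hL c hc
  have h4 := hL' d hd
  have : d = c := by
    ext <;> omega
  rwa [this] at hd

theorem paths_win : ∀ (k : ℕ) (q : ℤ) (x : Cell) (L : List Cell), L ∈ paths k q x →
    ∀ c ∈ L, x.2 ≤ c.2 + k ∧ c.2 ≤ x.2 + k ∧ x.1 + q ≤ c.1 + k ∧ c.1 ≤ x.1 + k
  | 0, q, x, L, h => by
    simp only [paths] at h
    split_ifs at h with hq
    · simp only [List.mem_singleton] at h
      subst h
      intro c hc
      simp only [List.mem_singleton] at hc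
      subst hc
      push_cast
      omega
    · simp at h
  | k + 1, q, x, L, h => by
    simp only [paths] at h
    split_ifs at h with hq
    · obtain ⟨e, he, h⟩ := List.mem_flatMap.1 h
      obtain ⟨L', hL', rfl⟩ := List.mem_map.1 h
      intro c hc
      have he2 : -1 ≤ e.2 ∧ e.2 ≤ 1 ∧ -1 ≤ e.1 ∧ e.1 ≤ 1 := by
        simp only [dirs, List.mem_cons, List.not_mem_nil, or_false] at he
        rcases he with rfl | rfl | rfl | rfl | rfl | rfl <;> simp
      push_cast
      rcases List.mem_cons.1 hc with rfl | hc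
      · omega
      · have := paths_win k (q - e.1) (x + e) L' hL' c hc
        simp only [Prod.fst_add, Prod.snd_add] at this
        omega
    · simp at h

/-- every walk with 5 or 6 steps contains a minimal one -/
theorem exists_min {L0 : List Cell} (h : L0 ∈ paths 5 5 0 ∨ L0 ∈ paths 6 5 0)
    (hr : ∀ u ∈ L0, 0 ≤ u.1) :
    ∃ L ∈ MIN, ∃ e : ℤ, (-1 ≤ e ∧ e ≤ 1) ∧ ∀ c ∈ L, c + (0, e) ∈ L0 := by
  rcases h with h | h
  · refine ⟨L0, List.mem_append_left _ h, 0, by norm_num, fun c hc => ?_⟩
    have : c + ((0, 0) : Cell) = c := by ext <;> simp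
    rwa [this]
  · by_cases hs : L0 ∈ SEV
    · refine ⟨L0, List.mem_append_right _ hs, 0, by norm_num, fun c hc => ?_⟩
      have : c + ((0, 0) : Cell) = c := by ext <;> simp
      rwa [this]
    · have h1 : ¬ (! sixMasks.any fun m => Nat.beq (m &&& rmask L0 16) m) = true := by
        intro h2
        exact hs (List.mem_filter.2 ⟨h, h2⟩)
      have h2 : (sixMasks.any fun m => Nat.beq (m &&& rmask L0 16) m) = true := by
        simpa using h1
      obtain ⟨m, hm, hm2⟩ := List.any_eq_true.1 h2
      obtain ⟨L6, hL6, rfl⟩ := List.mem_map.1 hm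
      have hm3 := Nat.eq_of_beq_eq_true hm2
      have key : ∀ x : Cell, x.1 = 0 → -1 ≤ x.2 → x.2 ≤ 1 → L6 ∈ paths 5 5 x →
          ∃ L ∈ MIN, ∃ e : ℤ, (-1 ≤ e ∧ e ≤ 1) ∧ ∀ c ∈ L, c + (0, e) ∈ L0 := by
        intro x hx1 hx2 hx3 hx
        obtain ⟨L, hL, hL6'⟩ := paths_origin hx
        refine ⟨L, List.mem_append_left _ hL, x.2, ⟨hx2, hx3⟩, fun c hc => ?_⟩
        have hxe : x = (0, x.2) := by ext <;> simp [hx1]
        have hc6 : c + (0, x.2) ∈ L6 := by
          rw [hL6', ← hxe]
          exact List.mem_map.2 ⟨c, hc, rfl⟩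
        refine mask_incl (t := 16) ?_ ?_ hm3 _ hc6
        · intro u hu
          have := paths_win 5 5 x L6 hx u hu
          push_cast at this
          omega
        · intro u hu
          have := paths_win 6 5 0 L0 h u hu
          simp only [Prod.fst_zero, Prod.snd_zero] at this
          push_cast at this
          have := hr u hu
          omega
      rcases List.mem_append.1 hL6 with hL6 | hL6
      · rcases List.mem_append.1 hL6 with hL6 | hL6
        · exact key (0, 0) rfl (by norm_num) (by norm_num) hL6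
        · exact key (0, 1) rfl (by norm_num) (by norm_num) hL6
      · exact key (0, -1) rfl (by norm_num) (by norm_num) hL6

/-- the line of a crossing with at most 7 cells -/
theorem cross_min {a : ℤ} {A : Finset Cell} (hA : Cross a 6 A) (h7 : A.card ≤ 7) :
    ∃ L ∈ MIN, ∃ b : ℤ, ∀ u ∈ L, u + (a, b) ∈ A := by
  obtain ⟨x, y, p, hp, hpA, hx, hy, hl⟩ := cross_path hA
  have hrow := walk_row p
  have hm := support_mem_paths p 5 (by push_cast at hy; omega)
  obtain ⟨L0, hL0, hL⟩ := paths_origin hm
  have h56 : L0 ∈ paths 5 5 0 ∨ L0 ∈ paths 6 5 0 := by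
    have : p.length = 5 ∨ p.length = 6 := by
      push_cast at hy
      omega
    rcases this with h | h
    · left
      rwa [h] at hL0
    · right
      rwa [h] at hL0
  have hmem : ∀ u ∈ L0, u + x ∈ p.support := by
    intro u hu
    rw [hL]
    exact List.mem_map.2 ⟨u, hu, rfl⟩
  obtain ⟨L, hLm, e, he, hLe⟩ := exists_min h56 (fun u hu => by
    have h1 := (hpA _ (hmem u hu)).2.1
    simp only [Prod.fst_add] at h1
    omega)
  refine ⟨L, hLm, e + x.2, fun u hu => ?_⟩
  have h1 := (hpA _ (hmem _ (hLe u hu))).1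
  have h2 : u + (0, e) + x = u + (a, e + x.2) := by
    ext
    · simp [hx]
    · simp only [Prod.snd_add]
      ring
  rwa [h2] at h1

theorem rmask_shift (L : List Cell) (t : ℤ) (k : ℕ)
    (hL : ∀ c ∈ L, 0 ≤ c.1 * 64 + c.2 + t) : rmask L (t + k) = rmask L t <<< k := by
  induction L with
  | nil => simp [rmask]
  | cons c L ih =>
    have h1 : rmask (c :: L) (t + k) = rmask L (t + k) ||| 2 ^ (c.1 * 64 + c.2 + (t + k)).toNat :=
      rfl
    have h2 : rmask (c :: L) t = rmask L t ||| 2 ^ (c.1 * 64 + c.2 + t).toNat := rfl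
    have h3 : (c.1 * 64 + c.2 + (t + k)).toNat = (c.1 * 64 + c.2 + t).toNat + k := by
      have := hL c (by simp)
      omega
    rw [h1, h2, ih (fun d hd => hL d (List.mem_cons_of_mem _ hd)), Nat.shiftLeft_or_distrib, h3]
    congr 1
    rw [Nat.shiftLeft_eq, pow_add]

/-- soundness of the check of the pairs -/
theorem pairs_sound {c1 c2 : ℕ} {P : List (ℕ × ℕ)} (h : pairsOK c1 c2 P = true) (a j : ℤ) :
    DisjPairs (P.map fun p => (cellOf a j p.1, cellOf a j p.2)) ∧
    ∀ p ∈ P, p.1 ≠ c1 ∧ p.1 ≠ c2 ∧ p.2 ≠ c1 ∧ p.2 ≠ c2 := by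
  have h' := List.all_eq_true.1 h
  constructor
  · intro p' hp'
    obtain ⟨p, hp, rfl⟩ := List.mem_map.1 hp'
    have hp2 := h' p hp
    simp only [Bool.and_eq_true, bne_iff_ne, ne_eq] at hp2
    refine ⟨fun h3 => hp2.1.1.1.1.1 (cellOf_inj h3), fun q' hq' hpq => ?_⟩
    obtain ⟨q, hq, rfl⟩ := List.mem_map.1 hq'
    have hq2 := List.all_eq_true.1 hp2.2 q hq
    simp only [Bool.or_eq_true, beq_iff_eq, Bool.and_eq_true, bne_iff_ne, ne_eq] at hq2
    rcases hq2 with hq2 | hq2
    · rw [hq2]
    · exfalso
      rcases hpq with h4 | h4 | h4 | h4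
      · exact hq2.1.1.1 (cellOf_inj h4)
      · exact hq2.1.1.2 (cellOf_inj h4)
      · exact hq2.1.2 (cellOf_inj h4)
      · exact hq2.2 (cellOf_inj h4)
  · intro p hp
    have hp2 := h' p hp
    simp only [Bool.and_eq_true, bne_iff_ne, ne_eq] at hp2
    exact ⟨hp2.1.1.1.1.2, hp2.1.1.1.2, hp2.1.1.2, hp2.1.2⟩

theorem allM_mem {C D : ℕ} {P : List ℕ} {k : ℕ} : ∀ {l : List (ℕ × ℕ)},
    allM C D P k l = true → ∀ {m n : ℕ}, (m, n) ∈ l → lineOK C D P (m <<< k) n = true
  | [], _, m, n, hm => by simp at hm
  | (m', n') :: l, h, m, n, hm => by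
    simp only [allM, Bool.cond_eq_ite] at h
    split_ifs at h with h1
    · rcases List.mem_cons.1 hm with h2 | h2
      · obtain ⟨rfl, rfl⟩ := Prod.mk.inj h2
        exact h1
      · exact allM_mem h h2

theorem anyP_mem {m : ℕ} : ∀ {P : List (ℕ × ℕ)}, anyP m (pmask P) = true →
    ∃ p ∈ P, m.testBit p.1 = true ∧ m.testBit p.2 = true
  | [], h => by simp [pmask, anyP] at h
  | p :: P, h => by
    have h0 : anyP m (pmask (p :: P)) = cond (Nat.beq (Nat.land m (2 ^ p.1 ||| 2 ^ p.2))
      (2 ^ p.1 ||| 2 ^ p.2)) true (anyP m (pmask P)) := rfl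
    rw [h0, Bool.cond_eq_ite] at h
    split_ifs at h with h1
    · have h2 : m &&& (2 ^ p.1 ||| 2 ^ p.2) = 2 ^ p.1 ||| 2 ^ p.2 := Nat.eq_of_beq_eq_true h1
      have h3 : ∀ i : ℕ, (i = p.1 ∨ i = p.2) → m.testBit i = true := by
        intro i hi
        have h4 := congrArg (fun x => x.testBit i) h2
        simp only [Nat.testBit_and, Nat.testBit_or, Nat.testBit_two_pow] at h4
        have h5 : (decide (p.1 = i) || decide (p.2 = i)) = true := by
          rcases hi with rfl | rfl <;> simp
        rw [h5, Bool.and_true] at h4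
        exact h4
      exact ⟨p, by simp, h3 _ (Or.inl rfl), h3 _ (Or.inr rfl)⟩
    · obtain ⟨q, hq, hq2⟩ := anyP_mem h
      exact ⟨q, List.mem_cons_of_mem _ hq, hq2⟩

theorem lineOK_any {C D m n : ℕ} {P : List (ℕ × ℕ)} (h : lineOK C D (pmask P) m n = true)
    (hD : m &&& D = 0) (hC : n = 7 → m &&& C = C) :
    ∃ p ∈ P, m.testBit p.1 = true ∧ m.testBit p.2 = true := by
  have h1 : Nat.beq (Nat.land m D) 0 = true := by
    have : Nat.land m D = 0 := hD
    rw [this]
    rfl
  unfold lineOK at h
  rw [h1, cond_true] at h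
  have h2 : (cond (Nat.beq n 7) (cond (Nat.beq (Nat.land m C) C) false true) false) = false := by
    by_cases hn : n = 7
    · have : Nat.land m C = C := hC hn
      rw [this, Nat.beq_refl]
      cases Nat.beq n 7 <;> rfl
    · have : Nat.beq n 7 = false := by
        rw [Bool.eq_false_iff]
        exact fun h => hn (Nat.eq_of_beq_eq_true h)
      rw [this]
      rfl
  rw [h2, cond_false] at h
  exact anyP_mem h

theorem near_of_chk {a j : ℤ} {r r2 s : ℕ} (hr : r < 6) (_ : r2 < 6) (hs : s < 13)
    (hchk : chk r r2 s = true)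
    (h1 : ((a + r2, j + s - 6) : Cell) ≠ (a + r, j))
    (h2 : ((a + r2, j + s - 6) : Cell) ≠ blk (dir a 6 (a + r, j)) (a + r, j)) :
    Near a (a + r, j) (a + r2, j + s - 6) := by
  have hc1 : ((a + r, j) : Cell) = cellOf a j (64 * r + 32) := by
    unfold cellOf
    ext <;> simp only <;> omega
  have hc2 : ((a + r2, j + s - 6) : Cell) = cellOf a j (64 * r2 + 26 + s) := by
    unfold cellOf
    ext <;> simp only <;> omega
  have hd1 : blk (dir a 6 (a + r, j)) (a + r, j) = cellOf a j (dcode r) := by
    unfold blk dir dcode cellOf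
    by_cases h3 : r < 3
    · have h4 : (decide (2 * ((a + r, j) : Cell).1 - 2 * a < ((6 : ℕ) : ℤ)) = true) := by
        simp only [decide_eq_true_eq]
        push_cast
        omega
      have h5 : (decide (2 * (((a + r, j) : Cell).1 - a) < ((6 : ℕ) : ℤ)) = true) := by
        simp only [decide_eq_true_eq]
        push_cast
        omega
      rw [if_pos h5, if_pos h3]
      ext
      · simp only [Prod.fst_add]
        omega
      · simp only [Prod.snd_add]
        omega
    · have h5 : ¬ (decide (2 * (((a + r, j) : Cell).1 - a) < ((6 : ℕ) : ℤ)) = true) := by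
        simp only [decide_eq_true_eq]
        push_cast
        omega
      rw [if_neg h5, if_neg h3]
      ext
      · simp only [Prod.fst_add]
        omega
      · simp only [Prod.snd_add]
        omega
  unfold chk at hchk
  simp only [Bool.or_eq_true, Bool.and_eq_true, beq_iff_eq, bne_iff_ne, ne_eq] at hchk
  rcases hchk with (hchk | hchk) | hchk
  · exact absurd (by rw [hc1, hc2, hchk]) h1
  · exact absurd (by rw [hd1, hc2, hchk]) h2
  · obtain ⟨⟨⟨⟨he1, he2⟩, hP⟩, hT1⟩, hT2⟩ := hchk
    obtain ⟨hPd, hPne⟩ := pairs_sound hP a j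
    refine ⟨cellOf a j (cert r r2 s).1, _, ?_, ?_, hPd, ?_⟩
    · rw [hc1]
      exact fun h => he1 (cellOf_inj h)
    · rw [hc2]
      exact fun h => he2 (cellOf_inj h)
    · intro A hA hb hd hcard
      rw [hd1] at hb
      rw [hc1, hc2] at hcard ⊢
      have hA7 : A.card ≤ 7 := by
        have h1 := card_le_card_sdiff_add_card (s := A)
          (t := insert (cellOf a j (64 * r2 + 26 + s)) (insert (cellOf a j (64 * r + 32)) ∅))
        have h2 : (insert (cellOf a j (64 * r2 + 26 + s))
          (insert (cellOf a j (64 * r + 32)) (∅ : Finset Cell))).card ≤ 2 := card_le_two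
        omega
      obtain ⟨L, hL, b, hLA⟩ := cross_min hA hA7
      obtain ⟨hnd, h6, hfact⟩ := minFact hL
      -- the set of cells of the line
      set S : Finset Cell := (L.map fun u => u + (a, b)).toFinset with hSdef
      have hScard : S.card = L.length := by
        rw [hSdef, List.toFinset_card_of_nodup, List.length_map]
        exact hnd.map (fun u v huv => by simpa using huv)
      have hSA : S ⊆ A := by
        intro u hu
        obtain ⟨v, hv, rfl⟩ := List.mem_map.1 (List.mem_toFinset.1 hu)
        exact hLA v hv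
      have hS5 : (S \ insert (cellOf a j (64 * r2 + 26 + s))
          (insert (cellOf a j (64 * r + 32)) ∅)).card ≤ 5 :=
        (card_le_card (sdiff_subset_sdiff hSA (Subset.refl _))).trans hcard
      -- the mask in the standard position
      have hbits : ∀ k : ℕ, ((-18 ≤ b - j ∧ b - j ≤ 18)) →
          (rmask L (32 + (b - j))).testBit k = true → cellOf a j k ∈ S := by
        intro k hw hk
        obtain ⟨u, hu, huk⟩ := (testBit_rmask L _ k).1 hk
        have hf := hfact u hu
        have : cellOf a j k = u + (a, b) := by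
          unfold cellOf
          ext
          · simp only [Prod.fst_add]
            omega
          · simp only [Prod.snd_add]
            omega
        rw [this]
        exact List.mem_toFinset.2 (List.mem_map.2 ⟨u, hu, rfl⟩)
      have hbits' : ∀ k : ℕ, ((-18 ≤ b - j ∧ b - j ≤ 18)) → cellOf a j k ∈ S →
          (rmask L (32 + (b - j))).testBit k = true := by
        intro k hw hk
        obtain ⟨u, hu, huk⟩ := List.mem_map.1 (List.mem_toFinset.1 hk)
        have hf := hfact u hu
        refine (testBit_rmask L _ k).2 ⟨u, hu, ?_⟩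
        have h3 := congrArg Prod.fst huk
        have h4 := congrArg Prod.snd huk
        simp only [cellOf, Prod.fst_add, Prod.snd_add] at h3 h4
        omega
      -- the line contains one of the two red cells
      have hone : cellOf a j (64 * r + 32) ∈ S ∨ cellOf a j (64 * r2 + 26 + s) ∈ S := by
        by_contra hcon
        push Not at hcon
        have h3 : S ⊆ S \ insert (cellOf a j (64 * r2 + 26 + s))
            (insert (cellOf a j (64 * r + 32)) ∅) := by
          intro u hu
          refine mem_sdiff.2 ⟨hu, ?_⟩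
          simp only [insert_empty_eq, mem_insert, mem_singleton]
          rintro (rfl | rfl)
          · exact hcon.2 hu
          · exact hcon.1 hu
        have h4 := card_le_card h3
        omega
      have hkey : (-18 ≤ b - j ∧ b - j ≤ 18) ∧
          lineOK (2 ^ (64 * r + 32) ||| 2 ^ (64 * r2 + 26 + s))
            (2 ^ dcode r ||| 2 ^ (cert r r2 s).1) (pmask (cert r r2 s).2)
            (rmask L (32 + (b - j))) L.length = true := by
        rcases hone with hone | hone
        · obtain ⟨u, hu, huk⟩ := List.mem_map.1 (List.mem_toFinset.1 hone)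
          have hf := hfact u hu
          have h3 := congrArg Prod.fst huk
          have h4 := congrArg Prod.snd huk
          simp only [cellOf, Prod.fst_add, Prod.snd_add] at h3 h4
          have h5 : u.1 = r := by omega
          have h6' : u.2 + b = j := by omega
          refine ⟨by omega, ?_⟩
          have h7 := allM_mem hT1 (m := rmask L (16 - u.2)) (n := L.length) (by
            have := hf.2.2.2.2
            rwa [h5, Int.toNat_natCast] at this)
          rw [← rmask_shift L (16 - u.2) 16 (fun v hv => by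
            have := hfact v hv
            omega)] at h7
          rw [show (32 + (b - j) : ℤ) = 16 - u.2 + ((16 : ℕ) : ℤ) by push_cast; omega]
          exact h7
        · obtain ⟨u, hu, huk⟩ := List.mem_map.1 (List.mem_toFinset.1 hone)
          have hf := hfact u hu
          have h3 := congrArg Prod.fst huk
          have h4 := congrArg Prod.snd huk
          simp only [cellOf, Prod.fst_add, Prod.snd_add] at h3 h4
          have h5 : u.1 = r2 := by omega
          have h6' : u.2 + b = j + s - 6 := by omega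
          refine ⟨by omega, ?_⟩
          have h7 := allM_mem hT2 (m := rmask L (16 - u.2)) (n := L.length) (by
            have := hf.2.2.2.2
            rwa [h5, Int.toNat_natCast] at this)
          rw [← rmask_shift L (16 - u.2) (10 + s) (fun v hv => by
            have := hfact v hv
            omega)] at h7
          rw [show (32 + (b - j) : ℤ) = 16 - u.2 + ((10 + s : ℕ) : ℤ) by push_cast; omega]
          exact h7
      obtain ⟨hw, hline⟩ := hkey
      have hD : (rmask L (32 + (b - j))) &&& (2 ^ dcode r ||| 2 ^ (cert r r2 s).1) = 0 := by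
        apply Nat.eq_of_testBit_eq
        intro i
        rw [Nat.testBit_and, Nat.testBit_or, Nat.testBit_two_pow, Nat.testBit_two_pow,
          Nat.zero_testBit, Bool.and_eq_false_iff]
        by_cases hi : (rmask L (32 + (b - j))).testBit i = true
        · right
          rw [Bool.or_eq_false_iff, decide_eq_false_iff_not, decide_eq_false_iff_not]
          constructor
          · rintro rfl
            exact hb (hSA (hbits _ hw hi))
          · rintro rfl
            exact hd (hSA (hbits _ hw hi))
        · left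
          simpa using hi
      have hC : L.length = 7 → (rmask L (32 + (b - j))) &&&
          (2 ^ (64 * r + 32) ||| 2 ^ (64 * r2 + 26 + s)) =
            2 ^ (64 * r + 32) ||| 2 ^ (64 * r2 + 26 + s) := by
        intro h7
        have e0 : ∀ k : ℕ, (k = 64 * r + 32 ∨ k = 64 * r2 + 26 + s) → cellOf a j k ∈ S := by
          intro k hk
          by_contra hkS
          have e1 : S.erase (cellOf a j (64 * r + 32 + (64 * r2 + 26 + s) - k)) ⊆
              S \ insert (cellOf a j (64 * r2 + 26 + s))
                (insert (cellOf a j (64 * r + 32)) ∅) := by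
            intro u hu
            rw [mem_erase] at hu
            refine mem_sdiff.2 ⟨hu.2, ?_⟩
            simp only [insert_empty_eq, mem_insert, mem_singleton, not_or]
            rcases hk with rfl | rfl
            · rw [Nat.add_sub_cancel_left] at hu
              exact ⟨hu.1, fun h => hkS (h ▸ hu.2)⟩
            · rw [Nat.add_sub_cancel] at hu
              exact ⟨fun h => hkS (h ▸ hu.2), hu.1⟩
          have e2 := card_le_card e1
          have e3 := pred_card_le_card_erase (s := S)
            (a := cellOf a j (64 * r + 32 + (64 * r2 + 26 + s) - k))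
          omega
        apply Nat.eq_of_testBit_eq
        intro i
        rw [Nat.testBit_and, Nat.testBit_or, Nat.testBit_two_pow, Nat.testBit_two_pow]
        by_cases hi : i = 64 * r + 32 ∨ i = 64 * r2 + 26 + s
        · rw [hbits' i hw (e0 i hi), Bool.true_and]
        · have h8 : decide (64 * r + 32 = i) = false := by
            rw [decide_eq_false_iff_not]
            exact fun h => hi (Or.inl h.symm)
          have h9 : decide (64 * r2 + 26 + s = i) = false := by
            rw [decide_eq_false_iff_not]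
            exact fun h => hi (Or.inr h.symm)
          rw [h8, h9]
          simp
      obtain ⟨p, hp, hp2⟩ := lineOK_any hline hD hC
      have hne := hPne p hp
      refine ⟨(cellOf a j p.1, cellOf a j p.2), List.mem_map.2 ⟨p, hp, rfl⟩,
        mem_sdiff.2 ⟨hSA (hbits _ hw hp2.1), ?_⟩, mem_sdiff.2 ⟨hSA (hbits _ hw hp2.2), ?_⟩⟩
      · simp only [insert_empty_eq, mem_insert, mem_singleton, not_or]
        exact ⟨fun h => hne.2.1 (cellOf_inj h), fun h => hne.1 (cellOf_inj h)⟩
      · simp only [insert_empty_eq, mem_insert, mem_singleton, not_or]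
        exact ⟨fun h => hne.2.2.2 (cellOf_inj h), fun h => hne.2.2.1 (cellOf_inj h)⟩

end Pool.Agent.Lib_helper66.HEX
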