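import Pool.Agent.Lib_helper66.HEX.Defs

namespace Pool.Agent.Lib_helper66.HEX

open Finset

/-- Blue can prevent `Bad R` for `m` more red stones; `E` is the set of empty cells. -/
def Safe (Bad : Finset Cell → Prop) : ℕ → Finset Cell → Set Cell → Prop
  | 0, R, _ => ¬ Bad R
  | m + 1, R, E => ¬ Bad R ∧ ∀ c ∈ E, ∃ d, Safe Bad m (insert c R) (E \ {c, d})

theorem Safe.notBad {Bad : Finset Cell → Prop} {m : ℕ} {R : Finset Cell} {E : Set Cell}
    (h : Safe Bad m R E) : ¬ Bad R := by
  cases m with
  | zero => exact h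
  | succ m => exact h.1

theorem Safe.mono {Bad : Finset Cell → Prop} : ∀ {m : ℕ} {R : Finset Cell} {E E' : Set Cell},
    Safe Bad m R E → E' ⊆ E → Safe Bad m R E'
  | 0, _, _, _, h, _ => h
  | m + 1, R, E, E', h, hE => by
    refine ⟨h.1, fun c hc => ?_⟩
    obtain ⟨d, hd⟩ := h.2 c (hE hc)
    exact ⟨d, Safe.mono hd (Set.sdiff_subset_sdiff_left hE)⟩

/-- too few stones -/
theorem safe_of_card {Bad : Finset Cell → Prop} {w : ℕ} (hB : ∀ A, Bad A → w ≤ A.card) :
    ∀ (m : ℕ) (R : Finset Cell) (E : Set Cell), R.card + m < w → Safe Bad m R E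
  | 0, R, E, h => fun hb => by have := hB R hb; omega
  | m + 1, R, E, h => by
    refine ⟨fun hb => by have := hB R hb; omega, fun c _ => ⟨c, safe_of_card hB m _ _ ?_⟩⟩
    have := card_insert_le c R
    omega

/-- a list of disjoint pairs -/
def DisjPairs (P : List (Cell × Cell)) : Prop :=
  ∀ p ∈ P, p.1 ≠ p.2 ∧ ∀ q ∈ P, (p.1 = q.1 ∨ p.1 = q.2 ∨ p.2 = q.1 ∨ p.2 = q.2) → p = q

/-- the pairing strategy -/
theorem safe_of_pairs {Bad : Finset Cell → Prop} {P : List (Cell × Cell)} (hP : DisjPairs P) :
    ∀ (m : ℕ) (R : Finset Cell) (E : Set Cell),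
    (∀ A : Finset Cell, Bad A → (∀ x ∈ A, x ∈ R ∨ x ∈ E) → (A \ R).card ≤ m →
      ∃ p ∈ P, p.1 ∈ A \ R ∧ p.2 ∈ A \ R) → Safe Bad m R E
  | m, R, E, h => by
    have hnb : ¬ Bad R := by
      intro hb
      obtain ⟨p, _, hp, _⟩ := h R hb (fun x hx => Or.inl hx) (by simp)
      simp at hp
    cases m with
    | zero => exact hnb
    | succ m =>
      refine ⟨hnb, fun c hc => ?_⟩
      have key : ∃ d, ∀ p ∈ P, (p.1 = c → p.2 = d) ∧ (p.2 = c → p.1 = d) := by
        by_cases hex : ∃ p ∈ P, p.1 = c ∨ p.2 = c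
        · obtain ⟨p, hp, hpc⟩ := hex
          rcases hpc with hpc | hpc
          · refine ⟨p.2, fun q hq => ⟨fun h1 => ?_, fun h1 => ?_⟩⟩
            · have := (hP p hp).2 q hq (Or.inl (by rw [hpc, h1]))
              rw [this]
            · have := (hP p hp).2 q hq (Or.inr (Or.inl (by rw [hpc, h1])))
              subst this
              exact absurd (hpc.trans h1.symm) (hP p hp).1
          · refine ⟨p.1, fun q hq => ⟨fun h1 => ?_, fun h1 => ?_⟩⟩
            · have := (hP p hp).2 q hq (Or.inr (Or.inr (Or.inl (by rw [hpc, h1]))))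
              subst this
              exact absurd (h1.trans hpc.symm) (hP p hp).1
            · have := (hP p hp).2 q hq (Or.inr (Or.inr (Or.inr (by rw [hpc, h1]))))
              rw [this]
        · push Not at hex
          exact ⟨c, fun p hp => ⟨fun h1 => absurd h1 (hex p hp).1,
            fun h1 => absurd h1 (hex p hp).2⟩⟩
      obtain ⟨d, hd⟩ := key
      refine ⟨d, safe_of_pairs hP m _ _ ?_⟩
      intro A hA hAE hcard
      have hsub : ∀ x ∈ A, x ∈ R ∨ x ∈ E := by
        intro x hx
        rcases hAE x hx with h1 | h1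
        · rcases mem_insert.1 h1 with rfl | h2
          · exact Or.inr hc
          · exact Or.inl h2
        · exact Or.inr h1.1
      have hc2 : (A \ R).card ≤ m + 1 := by
        have h1 : A \ R ⊆ insert c (A \ insert c R) := by
          intro x hx
          by_cases hxc : x = c
          · simp [hxc]
          · simp only [mem_insert, mem_sdiff] at hx ⊢
            right
            exact ⟨hx.1, fun h2 => h2.elim hxc hx.2⟩
        have h2 := card_le_card h1
        have h3 := card_insert_le c (A \ insert c R)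
        omega
      obtain ⟨p, hp, h1, h2⟩ := h A hA hsub hc2
      have hd' : d ∈ A \ R → d ≠ c → False := by
        intro h3 h4
        have h3' := mem_sdiff.1 h3
        rcases hAE d h3'.1 with h5 | h5
        · rcases mem_insert.1 h5 with h6 | h6
          · exact h4 h6
          · exact h3'.2 h6
        · exact h5.2 (by simp)
      have hne1 : p.1 ≠ c := by
        intro h3
        have h4 := (hd p hp).1 h3
        exact hd' (h4 ▸ h2) (fun h5 => (hP p hp).1 (h3.trans (h5.symm.trans h4.symm)))
      have hne2 : p.2 ≠ c := by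
        intro h3
        have h4 := (hd p hp).2 h3
        exact hd' (h4 ▸ h1) (fun h5 => (hP p hp).1 (h4.trans (h5.trans h3.symm)))
      refine ⟨p, hp, ?_, ?_⟩
      · simp only [mem_sdiff, mem_insert] at h1 ⊢
        exact ⟨h1.1, fun h5 => h5.elim hne1 h1.2⟩
      · simp only [mem_sdiff, mem_insert] at h2 ⊢
        exact ⟨h2.1, fun h5 => h5.elim hne2 h2.2⟩

end Pool.Agent.Lib_helper66.HEX
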