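import Pool.Agent.Lib_helper66.HEX.Cross

namespace Pool.Agent.Lib_helper66.HEX

open Finset

theorem adj_col {x y : Cell} (h : hexGraph.Adj x y) : y.2 ≤ x.2 + 1 ∧ x.2 ≤ y.2 + 1 := by
  have h' : Adj x y := h
  unfold Adj at h'
  omega

theorem walk_col_start {x y : Cell} (p : hexGraph.Walk x y) :
    ∀ u ∈ p.support, u.2 ≤ x.2 + p.length ∧ x.2 ≤ u.2 + p.length := by
  induction p with
  | nil =>
    intro u hu
    simp only [SimpleGraph.Walk.support_nil, List.mem_singleton] at hu
    subst hu
    simp
  | cons h p ih =>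
    intro u hu
    have := adj_col h
    simp only [SimpleGraph.Walk.length_cons, SimpleGraph.Walk.support_cons, List.mem_cons] at hu ⊢
    push_cast
    rcases hu with rfl | hu
    · omega
    · have := ih u hu
      omega

theorem walk_col {x y : Cell} (p : hexGraph.Walk x y) :
    ∀ u ∈ p.support, ∀ v ∈ p.support, u.2 ≤ v.2 + p.length := by
  induction p with
  | nil =>
    intro u hu v hv
    simp only [SimpleGraph.Walk.support_nil, List.mem_singleton] at hu hv
    subst hu
    subst hv
    simp
  | cons h p ih =>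
    intro u hu v hv
    have h1 := walk_col_start (SimpleGraph.Walk.cons h p)
    rw [SimpleGraph.Walk.support_cons, List.mem_cons] at hu hv
    rcases hu with rfl | hu
    · exact (h1 v (by
        rw [SimpleGraph.Walk.support_cons, List.mem_cons]
        exact hv)).2
    · rcases hv with rfl | hv
      · exact (h1 u (by
          rw [SimpleGraph.Walk.support_cons, List.mem_cons]
          exact Or.inr hu)).1
      · have := ih u hu v hv
        simp only [SimpleGraph.Walk.length_cons]
        push_cast
        omega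

theorem blk_ne (dn : Bool) (c : Cell) : blk dn c ≠ c := by
  intro h
  have h1 := congrArg Prod.fst h
  cases dn <;> simp [blk] at h1

theorem prs_ne (dn : Bool) (c : Cell) : ∀ p ∈ prs dn c, p.1 ≠ c ∧ p.2 ≠ c := by
  intro p hp
  cases dn with
  | true =>
    simp only [prs, if_true, List.mem_cons, List.not_mem_nil, or_false] at hp
    rcases hp with rfl | rfl <;> constructor <;> intro h <;>
      have h1 := congrArg Prod.fst h <;> simp at h1
  | false =>
    simp only [prs, Bool.false_eq_true, if_false, List.mem_cons, List.not_mem_nil,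
      or_false] at hp
    rcases hp with rfl | rfl <;> constructor <;> intro h <;>
      have h1 := congrArg Prod.fst h <;> simp at h1

theorem prs_col (dn : Bool) (c : Cell) : ∀ p ∈ prs dn c,
    (c.2 ≤ p.1.2 + 2 ∧ p.1.2 ≤ c.2 + 2) ∧ (c.2 ≤ p.2.2 + 2 ∧ p.2.2 ≤ c.2 + 2) := by
  intro p hp
  cases dn with
  | true =>
    simp only [prs, if_true, List.mem_cons, List.not_mem_nil, or_false] at hp
    rcases hp with rfl | rfl <;> simp only [Prod.snd_add] <;> omega
  | false =>
    simp only [prs, Bool.false_eq_true, if_false, List.mem_cons, List.not_mem_nil,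
      or_false] at hp
    rcases hp with rfl | rfl <;> simp only [Prod.snd_add] <;> omega

theorem prs_disj (dn : Bool) (c : Cell) : DisjPairs (prs dn c) := by
  intro p hp
  cases dn with
  | true =>
    simp only [prs, if_true, List.mem_cons, List.not_mem_nil, or_false] at hp ⊢
    rcases hp with rfl | rfl
    · refine ⟨fun h => by simpa using congrArg Prod.fst h, fun q hq hpq => ?_⟩
      rcases hq with rfl | rfl
      · rfl
      · simp [Prod.ext_iff] at hpq
    · refine ⟨fun h => by simpa using congrArg Prod.fst h, fun q hq hpq => ?_⟩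
      rcases hq with rfl | rfl
      · simp [Prod.ext_iff] at hpq
      · rfl
  | false =>
    simp only [prs, Bool.false_eq_true, if_false, List.mem_cons, List.not_mem_nil,
      or_false] at hp ⊢
    rcases hp with rfl | rfl
    · refine ⟨fun h => by simpa using congrArg Prod.fst h, fun q hq hpq => ?_⟩
      rcases hq with rfl | rfl
      · rfl
      · simp [Prod.ext_iff] at hpq
    · refine ⟨fun h => by simpa using congrArg Prod.fst h, fun q hq hpq => ?_⟩
      rcases hq with rfl | rfl
      · simp [Prod.ext_iff] at hpq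
      · rfl

theorem prs_disj_two (dn dn' : Bool) (c c' : Cell) (h : c.2 + 5 ≤ c'.2 ∨ c'.2 + 5 ≤ c.2) :
    DisjPairs (prs dn c ++ prs dn' c') := by
  intro p hp
  rcases List.mem_append.1 hp with hp | hp
  · refine ⟨(prs_disj dn c p hp).1, fun q hq hpq => ?_⟩
    rcases List.mem_append.1 hq with hq | hq
    · exact (prs_disj dn c p hp).2 q hq hpq
    · exfalso
      have h1 := prs_col dn c p hp
      have h2 := prs_col dn' c' q hq
      rcases hpq with h3 | h3 | h3 | h3 <;> have h4 := congrArg Prod.snd h3 <;> omega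
  · refine ⟨(prs_disj dn' c' p hp).1, fun q hq hpq => ?_⟩
    rcases List.mem_append.1 hq with hq | hq
    · exfalso
      have h1 := prs_col dn' c' p hp
      have h2 := prs_col dn c q hq
      rcases hpq with h3 | h3 | h3 | h3 <;> have h4 := congrArg Prod.snd h3 <;> omega
    · exact (prs_disj dn' c' p hp).2 q hq hpq

/-- the direction of the block -/
def dir (a : ℤ) (h : ℕ) (c : Cell) : Bool := decide (2 * (c.1 - a) < h)

theorem dir_ok {a : ℤ} {h : ℕ} (h4 : 4 ≤ h) {c : Cell} (hc : a ≤ c.1 ∧ c.1 < a + h) :
    if dir a h c then c.1 + 3 ≤ a + h else a + 2 ≤ c.1 := by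
  unfold dir
  split_ifs with hd
  · simp only [decide_eq_true_eq] at hd
    omega
  · simp only [decide_eq_true_eq] at hd
    omega

/-- a path of minimal length through `c` that avoids the block contains a pair -/
theorem path_pair {a : ℤ} {h : ℕ} (hh : monoOK h = true) (h4 : 4 ≤ h) {x y : Cell}
    (p : hexGraph.Walk x y) (hx : x.1 = a) (hy : y.1 = a + h - 1) (hl : p.length = h - 1)
    {c : Cell} (hc : c ∈ p.support) (hca : a ≤ c.1 ∧ c.1 < a + h)
    (hb : blk (dir a h c) c ∉ p.support) :
    ∃ q ∈ prs (dir a h c) c, q.1 ∈ p.support ∧ q.2 ∈ p.support := by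
  subst hx
  exact mono_block hh (by omega) p hy hl hc _ (dir_ok h4 hca) hb

theorem safe_strip_one {h : ℕ} (hh : monoOK h = true) (h4 : 4 ≤ h) (a : ℤ) (E : Set Cell)
    (hE : ∀ c ∈ E, a ≤ c.1 ∧ c.1 < a + h) : Safe (Cross a h) h ∅ E := by
  obtain ⟨m, rfl⟩ : ∃ m, h = m + 1 := ⟨h - 1, by omega⟩
  refine ⟨fun hb => by simpa using cross_card hb, fun c hc =>
    ⟨blk (dir a (m + 1) c) c, safe_of_pairs (prs_disj (dir a (m + 1) c) c) m _ _ ?_⟩⟩
  intro A hA hAE hcard
  obtain ⟨x, y, p, hp, hpA, hx, hy, hl⟩ := cross_path hA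
  have hrow := walk_row p
  have hS : p.support.toFinset.card = p.length + 1 := by
    rw [List.toFinset_card_of_nodup hp.support_nodup, SimpleGraph.Walk.length_support]
  have hcp : c ∈ p.support := by
    by_contra hcp
    have h1 : p.support.toFinset ⊆ A \ insert c ∅ := by
      intro u hu
      have hu' := List.mem_toFinset.1 hu
      refine mem_sdiff.2 ⟨(hpA u hu').1, ?_⟩
      simp only [insert_empty_eq, mem_singleton]
      rintro rfl
      exact hcp hu'
    have h2 := card_le_card h1
    push_cast at hy
    omega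
  have h1 : p.support.toFinset.erase c ⊆ A \ insert c ∅ := by
    intro u hu
    rw [mem_erase] at hu
    have hu' := List.mem_toFinset.1 hu.2
    refine mem_sdiff.2 ⟨(hpA u hu').1, ?_⟩
    simp only [insert_empty_eq, mem_singleton]
    exact hu.1
  have h2 := card_le_card h1
  rw [card_erase_of_mem (List.mem_toFinset.2 hcp)] at h2
  have hb : blk (dir a (m + 1) c) c ∉ p.support := by
    intro hb
    rcases hAE _ (hpA _ hb).1 with h3 | h3
    · simp only [insert_empty_eq, mem_singleton] at h3
      exact blk_ne _ _ h3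
    · exact h3.2 (by simp)
  obtain ⟨q, hq, hq1, hq2⟩ := path_pair hh h4 p hx hy (by push_cast at hy; omega) hcp
    (hE c hc) hb
  have hne := prs_ne _ _ q hq
  refine ⟨q, hq, mem_sdiff.2 ⟨(hpA _ hq1).1, ?_⟩, mem_sdiff.2 ⟨(hpA _ hq2).1, ?_⟩⟩
  · simpa using hne.1
  · simpa using hne.2

/-- the near case, to be supplied by computation -/
def Near (a : ℤ) (c c' : Cell) : Prop :=
  ∃ (d : Cell) (P : List (Cell × Cell)), d ≠ c ∧ d ≠ c' ∧ DisjPairs P ∧
    ∀ A : Finset Cell, Cross a 6 A → blk (dir a 6 c) c ∉ A → d ∉ A →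
      (A \ insert c' (insert c ∅)).card ≤ 5 →
      ∃ p ∈ P, p.1 ∈ A \ insert c' (insert c ∅) ∧ p.2 ∈ A \ insert c' (insert c ∅)

theorem far_case {a : ℤ} {c c' : Cell} (hc : a ≤ c.1 ∧ c.1 < a + 6)
    (hc' : a ≤ c'.1 ∧ c'.1 < a + 6) (h : c.2 + 7 ≤ c'.2 ∨ c'.2 + 7 ≤ c.2) : Near a c c' := by
  refine ⟨blk (dir a 6 c') c', prs (dir a 6 c) c ++ prs (dir a 6 c') c', ?_, blk_ne _ _,
    prs_disj_two _ _ _ _ (by omega), ?_⟩
  · intro hh
    have h1 := congrArg Prod.snd hh
    unfold blk at h1
    split_ifs at h1 <;> simp only [Prod.snd_add] at h1 <;> omega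
  · intro A hA hb hb' hcard
    obtain ⟨x, y, p, hp, hpA, hx, hy, hl⟩ := cross_path hA
    have hrow := walk_row p
    have hS : p.support.toFinset.card = p.length + 1 := by
      rw [List.toFinset_card_of_nodup hp.support_nodup, SimpleGraph.Walk.length_support]
    have hA7 : A.card ≤ 7 := by
      have h1 := card_le_card_sdiff_add_card (s := A) (t := insert c' (insert c ∅))
      have h2 : (insert c' (insert c (∅ : Finset Cell))).card ≤ 2 := card_le_two
      omega
    have hSA : p.support.toFinset \ insert c' (insert c ∅) ⊆ A \ insert c' (insert c ∅) := by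
      intro u hu
      rw [mem_sdiff] at hu ⊢
      exact ⟨(hpA u (List.mem_toFinset.1 hu.1)).1, hu.2⟩
    have hScard := card_le_card hSA
    have hnot : ¬ (c ∈ p.support ∧ c' ∈ p.support) := by
      rintro ⟨h1, h2⟩
      have h3 := walk_col p c h1 c' h2
      have h4 := walk_col p c' h2 c h1
      omega
    have hmem : c ∈ p.support ∨ c' ∈ p.support := by
      by_contra hcon
      push Not at hcon
      have h1 : p.support.toFinset ⊆ p.support.toFinset \ insert c' (insert c ∅) := by
        intro u hu
        refine mem_sdiff.2 ⟨hu, ?_⟩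
        simp only [insert_empty_eq, mem_insert, mem_singleton]
        rintro (rfl | rfl)
        · exact hcon.2 (List.mem_toFinset.1 hu)
        · exact hcon.1 (List.mem_toFinset.1 hu)
      have h2 := card_le_card h1
      omega
    have hlen : p.length = 5 := by
      rcases hmem with h1 | h1
      · have h2 : p.support.toFinset.erase c ⊆
            p.support.toFinset \ insert c' (insert c ∅) := by
          intro u hu
          rw [mem_erase] at hu
          refine mem_sdiff.2 ⟨hu.2, ?_⟩
          simp only [insert_empty_eq, mem_insert, mem_singleton]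
          rintro (rfl | rfl)
          · exact hnot ⟨h1, List.mem_toFinset.1 hu.2⟩
          · exact hu.1 rfl
        have h3 := card_le_card h2
        rw [card_erase_of_mem (List.mem_toFinset.2 h1)] at h3
        omega
      · have h2 : p.support.toFinset.erase c' ⊆
            p.support.toFinset \ insert c' (insert c ∅) := by
          intro u hu
          rw [mem_erase] at hu
          refine mem_sdiff.2 ⟨hu.2, ?_⟩
          simp only [insert_empty_eq, mem_insert, mem_singleton]
          rintro (rfl | rfl)
          · exact hu.1 rfl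
          · exact hnot ⟨List.mem_toFinset.1 hu.2, h1⟩
        have h3 := card_le_card h2
        rw [card_erase_of_mem (List.mem_toFinset.2 h1)] at h3
        omega
    rcases hmem with h1 | h1
    · obtain ⟨q, hq, hq1, hq2⟩ := path_pair mono6 (by norm_num) p hx (by push_cast; omega)
        (by omega) h1 (by push_cast; exact hc) (fun h2 => hb (hpA _ h2).1)
      have hne := prs_ne _ _ q hq
      have hn' : ∀ u ∈ p.support, u ≠ c' := by
        rintro u hu rfl
        exact hnot ⟨h1, hu⟩
      refine ⟨q, List.mem_append_left _ hq, mem_sdiff.2 ⟨(hpA _ hq1).1, ?_⟩,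
        mem_sdiff.2 ⟨(hpA _ hq2).1, ?_⟩⟩
      · simp only [insert_empty_eq, mem_insert, mem_singleton, not_or]
        exact ⟨hn' _ hq1, hne.1⟩
      · simp only [insert_empty_eq, mem_insert, mem_singleton, not_or]
        exact ⟨hn' _ hq2, hne.2⟩
    · obtain ⟨q, hq, hq1, hq2⟩ := path_pair mono6 (by norm_num) p hx (by push_cast; omega)
        (by omega) h1 (by push_cast; exact hc') (fun h2 => hb' (hpA _ h2).1)
      have hne := prs_ne _ _ q hq
      have hn' : ∀ u ∈ p.support, u ≠ c := by
        rintro u hu rfl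
        exact hnot ⟨hu, h1⟩
      refine ⟨q, List.mem_append_right _ hq, mem_sdiff.2 ⟨(hpA _ hq1).1, ?_⟩,
        mem_sdiff.2 ⟨(hpA _ hq2).1, ?_⟩⟩
      · simp only [insert_empty_eq, mem_insert, mem_singleton, not_or]
        exact ⟨hne.1, hn' _ hq1⟩
      · simp only [insert_empty_eq, mem_insert, mem_singleton, not_or]
        exact ⟨hne.2, hn' _ hq2⟩

theorem safe_strip_two {a : ℤ}
    (hnear : ∀ c c' : Cell, (a ≤ c.1 ∧ c.1 < a + 6) → (a ≤ c'.1 ∧ c'.1 < a + 6) → c' ≠ c →
      c' ≠ blk (dir a 6 c) c → c.2 ≤ c'.2 + 6 → c'.2 ≤ c.2 + 6 → Near a c c')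
    (E : Set Cell) (hE : ∀ c ∈ E, a ≤ c.1 ∧ c.1 < a + 6) : Safe (Cross a 6) 7 ∅ E := by
  refine ⟨fun hb => by simpa using cross_card hb, fun c hc => ⟨blk (dir a 6 c) c, ?_⟩⟩
  refine ⟨fun hb => ?_, fun c' hc' => ?_⟩
  · have := cross_card hb
    simp at this
  · have hcc : c' ≠ c := fun h => hc'.2 (by simp [h])
    have hcb : c' ≠ blk (dir a 6 c) c := fun h => hc'.2 (by simp [h])
    have hN : Near a c c' := by
      by_cases hfar : c.2 + 7 ≤ c'.2 ∨ c'.2 + 7 ≤ c.2
      · exact far_case (hE c hc) (hE c' hc'.1) hfar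
      · exact hnear c c' (hE c hc) (hE c' hc'.1) hcc hcb (by omega) (by omega)
    obtain ⟨d, P, hd1, hd2, hP, hall⟩ := hN
    refine ⟨d, safe_of_pairs hP 5 _ _ ?_⟩
    intro A hA hAE hcard
    refine hall A hA ?_ ?_ hcard
    · intro hb
      rcases hAE _ hb with h3 | h3
      · simp only [insert_empty_eq, mem_insert, mem_singleton] at h3
        rcases h3 with h3 | h3
        · exact hcb h3.symm
        · exact blk_ne _ _ h3
      · exact h3.1.2 (by simp)
    · intro hb
      rcases hAE _ hb with h3 | h3
      · simp only [insert_empty_eq, mem_insert, mem_singleton] at h3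
        rcases h3 with h3 | h3
        · exact hd2 h3
        · exact hd1 h3
      · exact h3.2 (by simp)

end Pool.Agent.Lib_helper66.HEX
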